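import Pool.Agent.Q10.KV1

/-!
The abc conjecture for finite subsets of the projective line: the rational points of all heights
counted by the truncated counting function of a Galois stable set of algebraic points, some of
which are rational and some of which are not
-/

set_option autoImplicit false

namespace Pool.Agent.Results.MP_4d5ce1_nt.ConjugateZerosAllHeights

open NumberField IsDedekindDomain Polynomial

/-- the absolute logarithmic height of the point `[x : 1]` -/
noncomputable def height {K : Type} [Field K] [NumberField K] (x : K) : ℝ :=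
  (∑ w : InfinitePlace K, (w.mult : ℝ) * Real.log (max (w x) (w 1)) +
    ∑ᶠ v : HeightOneSpectrum (RingOfIntegers K),
      Real.log (max (FinitePlace.mk v x) (FinitePlace.mk v 1))) /
    (Module.finrank ℚ K : ℝ)

/-- the truncated counting function of the point `[x : 1]` with respect to the points
`[(α l).1 : (α l).2]`: the sum over the primes outside `T` and over `l` of the truncated local
heights -/
noncomputable def counting {K : Type} [Field K] [NumberField K]
    (T : Set (HeightOneSpectrum (RingOfIntegers K))) {q : ℕ} (α : Fin q → K × K) (x : K) : ℝ :=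
  ∑ᶠ (v : HeightOneSpectrum (RingOfIntegers K)) (_ : v ∉ T),
    ∑ l : Fin q,
      min
        (Real.log
            (max (FinitePlace.mk v x) (FinitePlace.mk v 1) *
              max (FinitePlace.mk v (α l).1) (FinitePlace.mk v (α l).2) /
              FinitePlace.mk v (x * (α l).2 - 1 * (α l).1)) /
          (Module.finrank ℚ K : ℝ))
        (Real.log (Ideal.absNorm v.asIdeal : ℝ) / (Module.finrank ℚ K : ℝ))

/-- the rational points `x`, of any height, different from the `α_l`, with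
`∑_{v ∉ T} ∑_l λ^(1)_v(α_l, x) ≤ log X` -/
def Points {K : Type} [Field K] [NumberField K] (T : Set (HeightOneSpectrum (RingOfIntegers K)))
    {q : ℕ} (α : Fin q → K × K) (X : ℝ) : Set ℚ :=
  {x : ℚ | (∀ l, (x : K) * (α l).2 - 1 * (α l).1 ≠ 0) ∧ counting T α (x : K) ≤ Real.log X}

/-- those of height at most `t` -/
def PointsUpTo {K : Type} [Field K] [NumberField K]
    (T : Set (HeightOneSpectrum (RingOfIntegers K))) {q : ℕ} (α : Fin q → K × K) (X t : ℝ) :
    Set ℚ :=
  {x : ℚ | x ∈ Points T α X ∧ height (x : K) ≤ t}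

open Pool.Agent.W4.CF Pool.Agent.W4.VC Pool.Agent.Q10.KT Pool.Agent.Q10.KV in
theorem upTo_finite {K : Type} [Field K] [NumberField K]
    (T : Set (HeightOneSpectrum (RingOfIntegers K))) {q : ℕ} (α : Fin q → K × K) (X t : ℝ) :
    (PointsUpTo T α X t).Finite := by
  obtain ⟨B, hB⟩ : ∃ B : ℤ, B = ⌈Real.exp t⌉ := ⟨_, rfl⟩
  refine Set.Finite.of_finite_image (f := fun x : ℚ => ((x.num, (x.den : ℤ)) : ℤ × ℤ)) ?_
    num_inj.injOn
  refine ((Finset.finite_toSet (Finset.Icc (-B) B ×ˢ Finset.Icc (-B) B))).subset ?_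
  rintro _ ⟨x, ⟨-, hx⟩, rfl⟩
  have h1 : heightK (x : K) ≤ t := hx
  rw [height_rat] at h1
  have h0 : 0 < max |(x.num : ℝ)| |((x.den : ℤ) : ℝ)| := by
    refine lt_of_lt_of_le ?_ (le_max_right _ _)
    have : ((x.den : ℤ) : ℝ) ≠ 0 := by exact_mod_cast x.den_nz
    positivity
  have h2 : max |(x.num : ℝ)| |((x.den : ℤ) : ℝ)| ≤ (B : ℝ) := by
    rw [hB]
    refine le_trans ?_ (Int.le_ceil _)
    exact (Real.log_le_iff_le_exp h0).mp h1
  have b1 := (le_max_left _ _).trans h2
  have b2 := (le_max_right _ _).trans h2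
  rw [Finset.mem_coe, Finset.mem_product, Finset.mem_Icc, Finset.mem_Icc]
  refine ⟨abs_le.mp ?_, abs_le.mp ?_⟩
  · exact_mod_cast b1
  · show |(x.den : ℤ)| ≤ B
    exact_mod_cast b2

open Pool.Agent.W4.CF Pool.Agent.W4.VC Pool.Agent.Q10.KT Pool.Agent.Q10.KV in
/-- **Theorem.** Let `f = g_1 ⋯ g_w h_1 ⋯ h_L` be the form of degree `q = n_1 + ⋯ + n_w + L` without
multiple factors which is the product of forms `g_j` of degrees `n_j ≥ 2` and of linear forms `h_i`
with integral coefficients (`w + L ≥ 1`, `L ≠ 1`), and let `u` be the number of the `j` with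
`n_j = 2`. Let `K` be a number field which contains the `q` zeros `α_1, …, α_q` of `f` and `T` a
finite set of primes of `K`.

(1) If `L ≥ 3`, then for every `ε > 0` at most `C X ^ (2 / (L + 2w - u) + ε)` rational points, of
whatever height, satisfy `∑_{v ∉ T} ∑_l λ^(1)_v(α_l, x) ≤ log X`.

(2) For all `κ, ε > 0` at most `C X ^ (2 / (L + 2w) + ε)` of them have height at most `κ log X`.

(3) For large `X` at least `c X ^ (2 / q)` of them have height at most `(log X) / q`. -/
theorem result (K : Type) [Field K] [NumberField K]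
    (T : Set (HeightOneSpectrum (RingOfIntegers K))) (hT : T.Finite)
    (w L : ℕ) (hL : L ≠ 1) (hwL : 1 ≤ w + L) (g : Fin w → ℤ[X]) (n : Fin w → ℕ)
    (h : Fin L → ℤ[X]) (hg : ∀ j, (g j).natDegree ≤ n j ∧ 2 ≤ n j)
    (hh : ∀ i, (h i).natDegree ≤ 1)
    (hsq : Squarefree (((∏ j, g j) * ∏ i, h i).map (Int.castRingHom ℚ)))
    (q : ℕ) (hq : q = ∑ j, n j + L) (hdeg : q ≤ ((∏ j, g j) * ∏ i, h i).natDegree + 1)
    (α : Fin q → K × K) (hα0 : ∀ i, α i ≠ 0)
    (hα : ∀ i j, i ≠ j → (α i).1 * (α j).2 - (α i).2 * (α j).1 ≠ 0)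
    (hF : ∀ i, ∑ j ∈ Finset.range (q + 1), (((∏ j, g j) * ∏ i, h i).coeff j : K) *
      (α i).1 ^ j * (α i).2 ^ (q - j) = 0) :
    (3 ≤ L → ∀ ε : ℝ, 0 < ε → ∃ C : ℝ, ∀ X : ℝ, 1 ≤ X → (Points T α X).Finite ∧
      ((Points T α X).ncard : ℝ) ≤
        C * X ^ (2 / ((L : ℝ) + 2 * w - (Finset.univ.filter fun j => n j = 2).card) + ε)) ∧
    (∀ κ ε : ℝ, 0 < κ → 0 < ε → ∃ C : ℝ, ∀ X : ℝ, 1 ≤ X →
      (PointsUpTo T α X (κ * Real.log X)).Finite ∧
      ((PointsUpTo T α X (κ * Real.log X)).ncard : ℝ) ≤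
        C * X ^ (2 / ((L : ℝ) + 2 * w) + ε)) ∧
    (∃ c : ℝ, 0 < c ∧ ∃ X₀ : ℝ, ∀ X : ℝ, X₀ ≤ X →
      c * X ^ (2 / (q : ℝ)) ≤ ((PointsUpTo T α X (Real.log X / q)).ncard : ℝ)) := by
  classical
  set f : ℤ[X] := (∏ j, g j) * ∏ i, h i with hf
  have hf0 : f ≠ 0 := by
    rintro h0
    have := hsq.ne_zero
    rw [h0, Polynomial.map_zero] at this
    exact this rfl
  have hfq : f.natDegree ≤ q := by
    rw [hf, hq]
    refine natDegree_mul_le.trans (add_le_add ?_ ?_)
    · exact (natDegree_prod_le _ _).trans (Finset.sum_le_sum fun j _ => (hg j).1)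
    · refine (natDegree_prod_le _ _).trans ((Finset.sum_le_sum fun i _ => hh i).trans ?_)
      simp
  have hS : Sqf f q := ⟨hsq, hfq, hdeg⟩
  have hq1 : 1 ≤ q := by
    rw [hq]
    rcases Nat.eq_zero_or_pos w with hw | hw
    · omega
    · have h1 : n ⟨0, hw⟩ ≤ ∑ j, n j :=
        Finset.single_le_sum (f := n) (fun _ _ => Nat.zero_le _) (Finset.mem_univ _)
      have h2 := (hg ⟨0, hw⟩).2
      omega
  obtain ⟨m, hm, hrad⟩ := rat_radp T hT α hα0 hα f hf0 hfq hF
  refine ⟨?_, ?_, ?_⟩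
  · intro hL3 ε hε
    have hform := form_up w L hL3 g n (fun j => (hg j).1) (fun j => (hg j).2) h hh
      (by rw [← hq]; exact hS) ε hε
    rw [← hf, ← hq] at hform
    obtain ⟨C, hC, hmain⟩ := hform m hm
    refine ⟨C, fun X hX => ?_⟩
    refine fin_of_cards _ _ fun s hs => ?_
    have h1 := hmain X hX (s.image fun x : ℚ => ((x.num, (x.den : ℤ)) : ℤ × ℤ)) (by
      intro p hp
      obtain ⟨x, hx, rfl⟩ := Finset.mem_image.mp hp
      exact hrad X hX x (hs hx))
    rw [Finset.card_image_of_injective _ num_inj] at h1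
    exact h1
  · intro κ ε hκ hε
    obtain ⟨C, hC, hmain⟩ := Pool.Agent.TH498.KB.paired w L hL hwL g n (fun j => (hg j).1)
      (fun j => (hg j).2) h hh (by rw [← hq]; exact hS) (ε / κ) (by positivity)
    rw [← hf, ← hq] at hmain
    refine ⟨C * (m : ℝ) ^ (ε / κ), fun X hX => ⟨upTo_finite T α X _, ?_⟩⟩
    have hX0 : 0 < X := by linarith
    have hfin := upTo_finite T α X (κ * Real.log X)
    rw [Set.ncard_eq_toFinset_card _ hfin,
      ← Finset.card_image_of_injective _ num_inj]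
    have h1 := hmain m (X ^ κ) X hm (Real.one_le_rpow hX hκ.le) hX
      (hfin.toFinset.image fun x : ℚ => ((x.num, (x.den : ℤ)) : ℤ × ℤ)) (by
      intro p hp
      obtain ⟨x, hx, rfl⟩ := Finset.mem_image.mp hp
      rw [Set.Finite.mem_toFinset] at hx
      obtain ⟨hx1, hx2⟩ := hx
      obtain ⟨c1, c2, c3⟩ := hrad X hX x hx1
      have h1 : heightK (x : K) ≤ κ * Real.log X := hx2
      rw [height_rat] at h1
      have h0 : 0 < max |(x.num : ℝ)| |((x.den : ℤ) : ℝ)| := by
        refine lt_of_lt_of_le ?_ (le_max_right _ _)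
        have : ((x.den : ℤ) : ℝ) ≠ 0 := by exact_mod_cast x.den_nz
        positivity
      have h2 : max |(x.num : ℝ)| |((x.den : ℤ) : ℝ)| ≤ X ^ κ := by
        rw [Real.rpow_def_of_pos hX0, mul_comm]
        exact (Real.log_le_iff_le_exp h0).mp h1
      exact ⟨c1, (le_max_left _ _).trans h2, (le_max_right _ _).trans h2, c2, c3⟩)
    refine h1.trans (le_of_eq ?_)
    rw [Real.mul_rpow (Nat.cast_nonneg _) (by positivity), ← Real.rpow_mul hX0.le,
      mul_div_cancel₀ _ hκ.ne', Real.rpow_add hX0]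
    ring
  · obtain ⟨c, hc, X₀, -, hmain⟩ := many T hq1 α hα0
    refine ⟨c, hc, X₀, fun X hX => hmain X hX _ (upTo_finite T α X _) ?_⟩
    intro x hx1 hx2
    exact ⟨hx1, hx2⟩

end Pool.Agent.Results.MP_4d5ce1_nt.ConjugateZerosAllHeights
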