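import Pool.Agent.Q38.AE.Many

/-!
# The exceptional set ordered by the truncated counting function: the exact exponent

`K` is a number field of degree `d`, `T` a finite set of primes, `α_1, …, α_q` (`q ≥ 3`) are distinct
points of the projective line. The points `x` are ordered by `N(x) = ∑_{v ∉ T} ∑_l λ^(1)_v(α_l, x)`.
Q1 says `h(x) ≤ M N(x) + C` for every `M > 1 / (q - 2)`. We count the points which violate
`h < M N`, for `M > 1 / q`, and satisfy `h < L N` (or `h ≤ L log X`): there are
`X ^ (d (1 - (q - 2) M) + o(1))` of them with `N ≤ log X`.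
-/

set_option autoImplicit false

namespace Pool.Agent.Results.MP_4d5ce1_nt.ExceptionsByCounting

open NumberField IsDedekindDomain Filter Topology

/-- the absolute logarithmic height of the point `[x : 1]` -/
noncomputable def height {K : Type} [Field K] [NumberField K] (x : K) : ℝ :=
  (∑ w : InfinitePlace K, (w.mult : ℝ) * Real.log (max (w x) (w 1)) +
    ∑ᶠ v : HeightOneSpectrum (RingOfIntegers K),
      Real.log (max (FinitePlace.mk v x) (FinitePlace.mk v 1))) /
    (Module.finrank ℚ K : ℝ)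

/-- the truncated counting function of the point `[x : 1]` with respect to the points
`[(α l).1 : (α l).2]`: the sum over the primes outside `T` and over `l` of the truncated local
heights -/
noncomputable def counting {K : Type} [Field K] [NumberField K]
    (T : Set (HeightOneSpectrum (RingOfIntegers K))) {q : ℕ} (α : Fin q → K × K) (x : K) : ℝ :=
  ∑ᶠ (v : HeightOneSpectrum (RingOfIntegers K)) (_ : v ∉ T),
    ∑ l : Fin q,
      min
        (Real.log
            (max (FinitePlace.mk v x) (FinitePlace.mk v 1) *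
              max (FinitePlace.mk v (α l).1) (FinitePlace.mk v (α l).2) /
              FinitePlace.mk v (x * (α l).2 - 1 * (α l).1)) /
          (Module.finrank ℚ K : ℝ))
        (Real.log (Ideal.absNorm v.asIdeal : ℝ) / (Module.finrank ℚ K : ℝ))

/-- the `x ∈ K` different from the `α_l` with `N(x) ≤ log X` and `M N(x) ≤ h(x) ≤ L log X`, where
`N(x)` is the truncated counting function -/
def Exceptions {K : Type} [Field K] [NumberField K]
    (T : Set (HeightOneSpectrum (RingOfIntegers K))) {q : ℕ} (α : Fin q → K × K)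
    (M L X : ℝ) : Set K :=
  {x : K | (∀ l, x * (α l).2 - 1 * (α l).1 ≠ 0) ∧ Real.exp (counting T α x) ≤ X ∧
    M * counting T α x ≤ height x ∧ height x ≤ L * Real.log X}

/-- the `x ∈ K` different from the `α_l` with `N(x) ≤ log X` and `M N(x) ≤ h(x) < L N(x)` -/
def Between {K : Type} [Field K] [NumberField K]
    (T : Set (HeightOneSpectrum (RingOfIntegers K))) {q : ℕ} (α : Fin q → K × K)
    (M L X : ℝ) : Set K :=
  {x : K | (∀ l, x * (α l).2 - 1 * (α l).1 ≠ 0) ∧ Real.exp (counting T α x) ≤ X ∧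
    M * counting T α x ≤ height x ∧ height x < L * counting T α x}

open Pool.Agent.Q38.AE.Cov Pool.Agent.Q38.AE.Many

/-- Let `K` be a number field of degree `d`, `T` a finite set of primes, `α_1, …, α_q` (`q ≥ 3`)
distinct points of the projective line over `K`, and `1 / q < M < L`. Suppose that
(a) `L ≤ 7 / (7 q - 6)`, or (b) `q = 3` and `L ≤ 1 / 2`, or (c) `L ≤ 3 / q` and
`(q - 2) M ≤ 1 - (3 / q) max (47 / 77) ((14 q - 18) / (21 q - 18))` (for `q = 3`: `L ≤ 1` and
`M ≤ 30 / 77`). Then both sets are finite for every `X ≥ 1`, and both have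
`X ^ (d (1 - (q - 2) M) + o(1))` elements for `X → ∞`. -/
theorem result :
    ∀ (K : Type) [Field K] [NumberField K]
      (T : Set (HeightOneSpectrum (RingOfIntegers K))), T.Finite →
      ∀ (q : ℕ), 3 ≤ q → ∀ (α : Fin q → K × K),
        (∀ i, α i ≠ 0) →
        (∀ i j, i ≠ j → (α i).1 * (α j).2 - (α i).2 * (α j).1 ≠ 0) →
        ∀ M L : ℝ, 1 / (q : ℝ) < M → M < L →
          (L ≤ 7 / (7 * (q : ℝ) - 6) ∨ (q = 3 ∧ L ≤ 1 / 2) ∨
            (L ≤ 3 / q ∧ ((q : ℝ) - 2) * M ≤
              1 - 3 / (q : ℝ) * max (47 / 77) ((14 * (q : ℝ) - 18) / (21 * q - 18)))) →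
          (∀ X : ℝ, 1 ≤ X → (Exceptions T α M L X).Finite ∧
            Between T α M L X ⊆ Exceptions T α M L X) ∧
          Tendsto (fun X : ℝ => Real.log ((Exceptions T α M L X).ncard : ℝ) / Real.log X) atTop
            (𝓝 ((Module.finrank ℚ K : ℝ) * (1 - ((q : ℝ) - 2) * M))) ∧
          Tendsto (fun X : ℝ => Real.log ((Between T α M L X).ncard : ℝ) / Real.log X) atTop
            (𝓝 ((Module.finrank ℚ K : ℝ) * (1 - ((q : ℝ) - 2) * M))) := by
  intro K _ _ T hT q hq α hα0 hα M L hM hML hL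
  have hM0 : 0 < M := lt_trans (by positivity) hM
  have eE : ∀ X : ℝ, Exceptions T α M L X = E (Off K q α)
      Pool.Agent.Results.MP_4d5ce1_nt.ExceptionalSetExponents.height
      (Pool.Agent.Results.MP_4d5ce1_nt.ExceptionalSetExponents.counting T α) M L X := fun X => rfl
  have eF : ∀ X : ℝ, Between T α M L X = F (Off K q α)
      Pool.Agent.Results.MP_4d5ce1_nt.ExceptionalSetExponents.height
      (Pool.Agent.Results.MP_4d5ce1_nt.ExceptionalSetExponents.counting T α) M L X := fun X => rfl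
  have hup : ∀ ε : ℝ, 0 < ε → ∃ C : ℝ, 0 < C ∧ ∀ X : ℝ, 1 ≤ X →
      (Exceptions T α M L X).Finite ∧ ((Exceptions T α M L X).ncard : ℝ) ≤
        C * X ^ ((Module.finrank ℚ K : ℝ) * (1 - ((q : ℝ) - 2) * M) + ε) := by
    intro ε hε
    simp only [eE]
    exact upperQ K T hT q hq α hα0 hα hM hML hL hε
  have hlo : ∀ ε : ℝ, 0 < ε → ∃ X₀ : ℝ, ∀ X : ℝ, X₀ ≤ X →
      X ^ ((Module.finrank ℚ K : ℝ) * (1 - ((q : ℝ) - 2) * M) - ε) ≤
        ((Between T α M L X).ncard : ℝ) := by
    intro ε hε
    simp only [eF]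
    exact lowerQ K T hT q hq α hα0 hα hM hML hL hε
  have hfin : ∀ X : ℝ, 1 ≤ X → (Exceptions T α M L X).Finite ∧
      Between T α M L X ⊆ Exceptions T α M L X := by
    intro X hX
    obtain ⟨C, -, hC⟩ := hup 1 one_pos
    refine ⟨(hC X hX).1, ?_⟩
    rw [eE, eF]
    exact F_sub (by linarith) (by linarith)
  have hle : ∀ X : ℝ, 1 ≤ X → ((Between T α M L X).ncard : ℝ) ≤
      ((Exceptions T α M L X).ncard : ℝ) := by
    intro X hX
    obtain ⟨h1, h2⟩ := hfin X hX
    exact_mod_cast Set.ncard_le_ncard h2 h1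
  refine ⟨hfin, tendsto_exponent (fun ε hε => ?_) (fun ε hε => ?_),
    tendsto_exponent (fun ε hε => ?_) hlo⟩
  · obtain ⟨C, hC, h⟩ := hup ε hε
    exact ⟨C, hC, fun X hX => (h X hX).2⟩
  · obtain ⟨X₀, h⟩ := hlo ε hε
    exact ⟨max X₀ 1, fun X hX => (h X ((le_max_left _ _).trans hX)).trans
      (hle X ((le_max_right _ _).trans hX))⟩
  · obtain ⟨C, hC, h⟩ := hup ε hε
    exact ⟨C, hC, fun X hX => (hle X hX).trans (h X hX).2⟩

end Pool.Agent.Results.MP_4d5ce1_nt.ExceptionsByCounting
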