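import Pool.Agent.Q130.SZ.Line

/-! The truncated inequality for finite subsets of the projective line over `ℚ`, at the points `x`
for which the numbers measuring the reduction of `x` to the `α_ℓ` have boundedly many different
exponents: points of every height, at most `C X ^ ε` exceptions. -/

set_option autoImplicit false

namespace Pool.Agent.Results.MP_4d5ce1_nt.FewExponents

open Finset

/-- Normalised coprime integer coordinates: each point `[x₀ : x₁]` of the projective line over `ℚ`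
has exactly one such pair. -/
def Nrm (x : ℤ × ℤ) : Prop := IsCoprime x.1 x.2 ∧ (0 < x.2 ∨ x.2 = 0 ∧ 0 < x.1)

/-- The sum over the primes `p ∉ S` and over `ℓ` of the truncated local heights
`λ⁽¹⁾_p(α_ℓ, x)`: for coprime coordinates of `x` and `α_ℓ` this is `log p` if
`p ∣ x₀ a₁ - x₁ a₀` and `0` otherwise. -/
noncomputable def N1 {q : ℕ} (α : Fin q → ℤ × ℤ) (S : Finset ℕ) (x : ℤ × ℤ) : ℝ :=
  ∑ i, ∑ p ∈ (x.1 * (α i).2 - x.2 * (α i).1).natAbs.primeFactors \ S, Real.log p

/-- The absolute logarithmic height of the point with the coprime coordinates `x`. -/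
noncomputable def hgt (x : ℤ × ℤ) : ℝ := Real.log (max x.1.natAbs x.2.natAbs : ℕ)

/-- the exponents of the primes `p ∉ S` in the `q` numbers `x₀ a₁ - x₁ a₀`, `[a₀ : a₁] = α_ℓ`; the
untruncated local heights at these primes are these exponents times `log p` -/
def exponents {q : ℕ} (α : Fin q → ℤ × ℤ) (S : Finset ℕ) (x : ℤ × ℤ) : Finset ℕ :=
  Finset.univ.biUnion fun i =>
    ((x.1 * (α i).2 - x.2 * (α i).1).natAbs.primeFactors \ S).image
      (fun p => (x.1 * (α i).2 - x.2 * (α i).1).natAbs.factorization p)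

/-- The points `x`, different from all the `α_ℓ`, with at most `n` different exponents,
`∑_{p ∉ S} ∑_ℓ λ⁽¹⁾_p(α_ℓ, x) ≤ log X` and `h(x) > K ∑_{p ∉ S} ∑_ℓ λ⁽¹⁾_p(α_ℓ, x)`; there is no
condition on the height of `x`. -/
def Exceptional {q : ℕ} (α : Fin q → ℤ × ℤ) (S : Finset ℕ) (n : ℕ) (K X : ℝ) : Set (ℤ × ℤ) :=
  {x | Nrm x ∧ (∀ i, x.1 * (α i).2 - x.2 * (α i).1 ≠ 0) ∧ (exponents α S x).card ≤ n ∧
    N1 α S x ≤ Real.log X ∧ K * N1 α S x < hgt x}

/-- Let `q ≥ 3`, let `α_1, …, α_q` be distinct points of `ℙ¹(ℚ)` (coprime integer coordinates) and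
`S` a finite set of primes. For all `n` and `ε > 0` there are `K` and `C` such that for every
`X ≥ 1`, among the points `x`, of whatever height, with at most `n` different exponents and
`∑_{p ∉ S} ∑_ℓ λ⁽¹⁾_p(α_ℓ, x) ≤ log X`, all but at most `C X ^ ε` satisfy
`h(x) ≤ K ∑_{p ∉ S} ∑_ℓ λ⁽¹⁾_p(α_ℓ, x)`. -/
theorem result (q : ℕ) (hq : 3 ≤ q) (α : Fin q → ℤ × ℤ)
    (_hcop : ∀ i, IsCoprime (α i).1 (α i).2)
    (hα : ∀ i j, i ≠ j → (α i).1 * (α j).2 ≠ (α j).1 * (α i).2) (S : Finset ℕ) (n : ℕ)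
    (ε : ℝ) (hε : 0 < ε) : ∃ K C : ℝ, 0 < K ∧ 0 < C ∧ ∀ X : ℝ, 1 ≤ X →
      (Exceptional α S n K X).Finite ∧ ((Exceptional α S n K X).ncard : ℝ) ≤ C * X ^ ε := by
  classical
  obtain ⟨d, rfl⟩ : ∃ d, q = d + 3 := ⟨q - 3, by omega⟩
  obtain ⟨i, hi⟩ : ∃ i : Fin (d + 3), i = ⟨0, by omega⟩ := ⟨_, rfl⟩
  obtain ⟨j, hj⟩ : ∃ j : Fin (d + 3), j = ⟨1, by omega⟩ := ⟨_, rfl⟩
  obtain ⟨k, hk⟩ : ∃ k : Fin (d + 3), k = ⟨2, by omega⟩ := ⟨_, rfl⟩
  have hij : i ≠ j := by rw [hi, hj]; simp
  have hjk : j ≠ k := by rw [hj, hk]; simp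
  have hki : k ≠ i := by rw [hi, hk]; simp
  have hdt : ∀ s t : Fin (d + 3), s ≠ t → Pool.Agent.Q130.SZ.dt (α s) (α t) ≠ 0 := by
    intro s t hst h0
    apply hα s t hst
    unfold Pool.Agent.Q130.SZ.dt at h0
    linarith
  obtain ⟨K, C, hK, hC, h⟩ := Pool.Agent.Q130.SZ.line_count (α i) (α j) (α k)
    (hdt i j hij) (hdt j k hjk) (hdt k i hki) S n ε hε
  refine ⟨K, C, hK, hC, fun X hX => ?_⟩
  have hX0 : 0 < X := by linarith
  have key : ∀ F : Finset (ℤ × ℤ), (F : Set (ℤ × ℤ)) ⊆ Exceptional α S n K X →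
      (F.card : ℝ) ≤ C * X ^ ε := by
    intro F hF
    refine h X hX F (fun x hx => ?_)
    obtain ⟨⟨g1, -⟩, g3, g4, g5, g6⟩ := hF (Finset.mem_coe.2 hx)
    have hterm : ∀ s : Fin (d + 3), 0 ≤
        ∑ p ∈ (x.1 * (α s).2 - x.2 * (α s).1).natAbs.primeFactors \ S, Real.log (p : ℝ) :=
      fun s => Finset.sum_nonneg fun p _ => Real.log_natCast_nonneg p
    have hN0 : 0 ≤ N1 α S x := Finset.sum_nonneg fun s _ => hterm s
    have hGd : ∀ s : Fin (d + 3), Pool.Agent.Q130.SZ.Gd S n (Real.exp (N1 α S x))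
        (Pool.Agent.Q130.SZ.Lf (α s) x).natAbs := by
      intro s
      constructor
      · refine le_trans (Finset.card_le_card ?_) g4
        intro e he
        unfold exponents
        rw [Finset.mem_biUnion]
        exact ⟨s, Finset.mem_univ _, he⟩
      · show ((∏ p ∈ (x.1 * (α s).2 - x.2 * (α s).1).natAbs.primeFactors \ S, p : ℕ) : ℝ) ≤ _
        have e1 : ((∏ p ∈ (x.1 * (α s).2 - x.2 * (α s).1).natAbs.primeFactors \ S, p : ℕ) : ℝ) =
            Real.exp (∑ p ∈ (x.1 * (α s).2 - x.2 * (α s).1).natAbs.primeFactors \ S,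
              Real.log (p : ℝ)) := by
          rw [Real.exp_sum]
          push_cast
          refine Finset.prod_congr rfl fun p hp => ?_
          rw [Real.exp_log]
          exact_mod_cast (Nat.prime_of_mem_primeFactors (Finset.mem_sdiff.mp hp).1).pos
        rw [e1]
        apply Real.exp_le_exp.mpr
        unfold N1
        exact Finset.single_le_sum (f := fun s => ∑ p ∈
          (x.1 * (α s).2 - x.2 * (α s).1).natAbs.primeFactors \ S, Real.log (p : ℝ))
          (fun s _ => hterm s) (Finset.mem_univ s)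
    refine ⟨g1, g3 i, g3 j, g3 k, Real.exp (N1 α S x), Real.one_le_exp hN0, ?_, hGd i, hGd j,
      hGd k, ?_⟩
    · rw [← Real.le_log_iff_exp_le hX0]
      exact g5
    · rw [← Real.exp_mul, mul_comm]
      have hm : 0 < max x.1.natAbs x.2.natAbs := by
        rcases Nat.eq_zero_or_pos (max x.1.natAbs x.2.natAbs) with h0 | h0
        · exfalso
          have e1 : x.1 = 0 := by
            have := le_max_left x.1.natAbs x.2.natAbs
            omega
          have e2 : x.2 = 0 := by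
            have := le_max_right x.1.natAbs x.2.natAbs
            omega
          rw [e1, e2] at g1
          exact not_isCoprime_zero_zero g1
        · exact h0
      have h1 : Real.exp (K * N1 α S x) < ((max x.1.natAbs x.2.natAbs : ℕ) : ℝ) := by
        have h2 := Real.exp_lt_exp.mpr g6
        unfold hgt at h2
        rwa [Real.exp_log (by exact_mod_cast hm)] at h2
      refine h1.trans_le (le_of_eq ?_)
      rw [Nat.cast_max, Nat.cast_natAbs, Nat.cast_natAbs, Int.cast_abs, Int.cast_abs]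
  have hfin : (Exceptional α S n K X).Finite := by
    by_contra hinf
    obtain ⟨F, hF, hFc⟩ := Set.Infinite.exists_subset_card_eq hinf (⌊C * X ^ ε⌋₊ + 1)
    have h1 := key F hF
    rw [hFc] at h1
    have h2 := Nat.lt_floor_add_one (C * X ^ ε)
    push_cast at h1 h2
    linarith
  refine ⟨hfin, ?_⟩
  have h1 := key hfin.toFinset (by simp)
  rwa [← Set.ncard_eq_toFinset_card _ hfin] at h1

end Pool.Agent.Results.MP_4d5ce1_nt.FewExponents
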