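import Pool.Agent.Q290.NF.LineQ
import Pool.Agent.Q290.NF.Root

/-!
# The abc conjecture for all finite subsets of the projective line over `K` follows from the three
point inequality on arbitrarily thin subsets of `ℙ¹(K)`

`AllPoints K` is Q1 for the number field `K`: the truncated inequality for all finite sets `S` of
places, all `q` pairwise distinct points `α_1, …, α_q` of `ℙ¹(K)` and all points `x` of `ℙ¹(K)`.

`ThinPoints K k` is the inequality for `S = ∅` (no finite places), `q = 3`, the three points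
`1`, `-1`, `∞`, and only for the points `x = T(u)`, where `u` is in `K` and `T` is the Chebyshev
polynomial of degree `2 ^ k`. If `d` is the degree of `K`, there are only `O(exp (5 d² B / 2 ^ k))`
such points of height at most `B`.

The theorem: for every number field `K` and every `k` the two are equivalent. The proof contains
Belyi's theorem for finite sets of algebraic numbers (`Pool.Agent.Q290.NF.belyi`).
-/

set_option autoImplicit false

namespace Pool.Agent.Results.MP_4d5ce1_nt.ThinSetsSuffice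

open Polynomial IsDedekindDomain NumberField

variable {K : Type} [Field K] [NumberField K]

/-- The absolute logarithmic height of the point `[x_0 : x_1]`. -/
noncomputable def height (x : Fin 2 → K) : ℝ := Height.logHeight x / Module.finrank ℚ K

/-- The local height `λ_v(a, x)` is positive: the points `x` and `a` coincide modulo `v`. -/
def Meet (a x : Fin 2 → K) (v : HeightOneSpectrum (𝓞 K)) : Prop :=
  v.valuation K (x 0 * a 1 - x 1 * a 0) <
    max (v.valuation K (x 0)) (v.valuation K (x 1)) *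
      max (v.valuation K (a 0)) (v.valuation K (a 1))

open Classical in
/-- The truncated local height `λ_v^{(1)}(a, x)`: it is `log N(v) / [K : ℚ]` if `x` and `a`
coincide modulo `v`, and `0` otherwise. -/
noncomputable def truncatedLocalHeight (a x : Fin 2 → K) (v : HeightOneSpectrum (𝓞 K)) : ℝ :=
  if Meet a x v then Real.log (Ideal.absNorm v.asIdeal) / Module.finrank ℚ K else 0

open Classical in
/-- The sum of the truncated local heights `λ_v^{(1)}(α_l, x)` over the primes `v` which are not
in `S` and over all `l`. -/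
noncomputable def counting (S : Finset (HeightOneSpectrum (𝓞 K))) {q : ℕ}
    (α : Fin q → Fin 2 → K) (x : Fin 2 → K) : ℝ :=
  ∑ᶠ v : HeightOneSpectrum (𝓞 K), if v ∈ S then 0 else ∑ l, truncatedLocalHeight (α l) x v

/-- The inequality of Q1 for the points `α_1, …, α_q` and the points `x` in the set `T`: for every
`ε > 0` there is `C` such that `(q - 2 - ε) h(x) ≤ ∑_{v ∉ S} ∑_l λ_v^{(1)}(α_l, x) + C` for all
`x` in `T` different from all `α_l`. -/
def Inequality (S : Finset (HeightOneSpectrum (𝓞 K))) {q : ℕ} (α : Fin q → Fin 2 → K)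
    (T : Set (Fin 2 → K)) : Prop :=
  ∀ ε : ℝ, 0 < ε → ∃ C : ℝ, ∀ x ∈ T, x ≠ 0 → (∀ l, x 0 * α l 1 - x 1 * α l 0 ≠ 0) →
    ((q : ℝ) - 2 - ε) * height x ≤ counting S α x + C

/-- Q1 for the number field `K`. -/
def AllPoints (K : Type) [Field K] [NumberField K] : Prop :=
  ∀ (S : Finset (HeightOneSpectrum (𝓞 K))) (q : ℕ) (α : Fin q → Fin 2 → K), (∀ l, α l ≠ 0) →
    (∀ i j, i ≠ j → α i 0 * α j 1 - α i 1 * α j 0 ≠ 0) → Inequality S α Set.univ

/-- The points `[T(u) : 1]`, where `u` is in `K` and `T` is the Chebyshev polynomial of degree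
`2 ^ k`. -/
def Thin (K : Type) [Field K] (k : ℕ) : Set (Fin 2 → K) :=
  {x | ∃ u : K, x = ![(Chebyshev.T K ((2 : ℤ) ^ k)).eval u, 1]}

/-- The inequality for the three points `1`, `-1`, `∞` and the thin set, without finite places
in `S`. -/
def ThinPoints (K : Type) [Field K] [NumberField K] (k : ℕ) : Prop :=
  Inequality (∅ : Finset (HeightOneSpectrum (𝓞 K))) (![![1, 1], ![-1, 1], ![1, 0]]) (Thin K k)

open Pool.Agent.Q290.NF

theorem meet_fin {a x : Fin 2 → K} (h : x 0 * a 1 - x 1 * a 0 ≠ 0) :
    {v : HeightOneSpectrum (𝓞 K) | Meet a x v}.Finite := by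
  refine ((fin_zero h).union ((((fin_pole (x 0)).union (fin_pole (x 1))).union
    (fin_pole (a 0))).union (fin_pole (a 1)))).subset ?_
  intro v hv
  by_contra hcon
  simp only [Set.mem_union, not_or] at hcon
  obtain ⟨h1, ⟨⟨h2, h3⟩, h4⟩, h5⟩ := hcon
  rw [Set.mem_ofPred_eq, not_lt] at h1 h2 h3 h4 h5
  have h6 : max (v.valuation K (x 0)) (v.valuation K (x 1)) *
      max (v.valuation K (a 0)) (v.valuation K (a 1)) ≤ 1 :=
    mul_le_one' (max_le h2 h3) (max_le h4 h5)
  exact absurd (lt_of_lt_of_le hv h6) (not_lt.2 h1)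

theorem counting_eq (S : Finset (HeightOneSpectrum (𝓞 K))) {q : ℕ} {α : Fin q → Fin 2 → K}
    {x : Fin 2 → K} (h : ∀ l, x 0 * α l 1 - x 1 * α l 0 ≠ 0) :
    counting S α x = (∑ l, wt (fun v => v ∉ S ∧ Meet (α l) x v)) / Module.finrank ℚ K := by
  classical
  have hd0 : (Module.finrank ℚ K : ℝ) ≠ 0 := by
    have := Module.finrank_pos (R := ℚ) (M := K)
    exact_mod_cast this.ne'
  have h1 : counting S α x = ∑ᶠ v : HeightOneSpectrum (𝓞 K),
      ∑ l, ind (fun v => v ∉ S ∧ Meet (α l) x v) v / Module.finrank ℚ K := by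
    unfold counting
    refine finsum_congr fun v => ?_
    by_cases hv : v ∈ S
    · rw [if_pos hv]
      refine (Finset.sum_eq_zero fun l _ => ?_).symm
      rw [ind_neg (P := fun v => v ∉ S ∧ Meet (α l) x v) (fun h2 => h2.1 hv), zero_div]
    · rw [if_neg hv]
      refine Finset.sum_congr rfl fun l _ => ?_
      unfold truncatedLocalHeight
      by_cases hm : Meet (α l) x v
      · rw [if_pos hm, ind_pos (P := fun v => v ∉ S ∧ Meet (α l) x v) ⟨hv, hm⟩]
        rfl
      · rw [if_neg hm, ind_neg (P := fun v => v ∉ S ∧ Meet (α l) x v) (fun h2 => hm h2.2),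
          zero_div]
  have hfin : ∀ l, {v : HeightOneSpectrum (𝓞 K) | v ∉ S ∧ Meet (α l) x v}.Finite := fun l =>
    (meet_fin (h l)).subset fun v hv => hv.2
  rw [h1, finsum_sum_comm, Finset.sum_div]
  · refine Finset.sum_congr rfl fun l _ => ?_
    unfold wt
    rw [div_eq_mul_inv, finsum_mul]
    exact finsum_congr fun v => div_eq_mul_inv _ _
  · intro l _
    refine (hfin l).subset fun v hv => ?_
    refine supp_sub (fun v => v ∉ S ∧ Meet (α l) x v) ?_
    rw [Function.mem_support] at hv ⊢
    intro h2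
    exact hv (by rw [h2, zero_div])

theorem counting_nonneg (S : Finset (HeightOneSpectrum (𝓞 K))) {q : ℕ} (α : Fin q → Fin 2 → K)
    (x : Fin 2 → K) : 0 ≤ counting S α x := by
  unfold counting
  refine finsum_nonneg fun v => ?_
  split_ifs
  · exact le_rfl
  · refine Finset.sum_nonneg fun l _ => ?_
    unfold truncatedLocalHeight
    split_ifs
    · exact div_nonneg (Real.log_natCast_nonneg _) (Nat.cast_nonneg _)
    · exact le_rfl

theorem wt_add {P Q : HeightOneSpectrum (𝓞 K) → Prop} (hP : {v | P v}.Finite)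
    (hQ : {v | Q v}.Finite) :
    wt P + wt Q = wt (fun v => P v ∨ Q v) + wt (fun v => P v ∧ Q v) := by
  unfold wt
  rw [← finsum_add_distrib (hP.subset (supp_sub _)) (hQ.subset (supp_sub _)),
    ← finsum_add_distrib]
  · refine finsum_congr fun v => ?_
    by_cases h1 : P v
    · by_cases h2 : Q v
      · rw [ind_pos h1, ind_pos h2, ind_pos (P := fun v => P v ∨ Q v) (Or.inl h1),
          ind_pos (P := fun v => P v ∧ Q v) ⟨h1, h2⟩]
      · rw [ind_pos h1, ind_neg h2, ind_pos (P := fun v => P v ∨ Q v) (Or.inl h1),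
          ind_neg (P := fun v => P v ∧ Q v) fun h => h2 h.2]
    · by_cases h2 : Q v
      · rw [ind_neg h1, ind_pos h2, ind_pos (P := fun v => P v ∨ Q v) (Or.inr h2),
          ind_neg (P := fun v => P v ∧ Q v) fun h => h1 h.1]
        ring
      · rw [ind_neg h1, ind_neg h2, ind_neg (P := fun v => P v ∨ Q v) (not_or.2 ⟨h1, h2⟩),
          ind_neg (P := fun v => P v ∧ Q v) fun h => h1 h.1]
  · exact (hP.union hQ).subset (supp_sub (fun v => P v ∨ Q v))
  · refine hP.subset fun v hv => (supp_sub (fun v => P v ∧ Q v) hv).1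

theorem wt_false {P : HeightOneSpectrum (𝓞 K) → Prop} (h : ∀ v, ¬ P v) : wt P = 0 :=
  finsum_eq_zero_of_forall_eq_zero fun v => ind_neg (h v)

theorem height_affine (y : K) : height ![y, 1] = Height.logHeight₁ y / Module.finrank ℚ K := by
  unfold height
  rw [← Height.logHeight₁_eq_logHeight]

/-- the three points -/
theorem three_le (y : K) (h0 : y ≠ 0) (h1 : y ≠ 1) (h2 : y ≠ -1) :
    (∑ l, wt (fun v : HeightOneSpectrum (𝓞 K) => v ∉ (∅ : Finset (HeightOneSpectrum (𝓞 K))) ∧
      Meet ((![![1, 1], ![-1, 1], ![1, 0]] : Fin 3 → Fin 2 → K) l) ![y, 1] v)) ≤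
      wt (fun v => Near y⁻¹ v) + Module.finrank ℚ K * Real.log 2 := by
  have e : ∀ l : Fin 3, wt (fun v : HeightOneSpectrum (𝓞 K) =>
      v ∉ (∅ : Finset (HeightOneSpectrum (𝓞 K))) ∧
      Meet ((![![1, 1], ![-1, 1], ![1, 0]] : Fin 3 → Fin 2 → K) l) ![y, 1] v) =
      wt (fun v : HeightOneSpectrum (𝓞 K) =>
        Meet ((![![1, 1], ![-1, 1], ![1, 0]] : Fin 3 → Fin 2 → K) l) ![y, 1] v) := by
    intro l
    congr 1
    funext v
    exact propext ⟨fun h => h.2, fun h => ⟨Finset.notMem_empty v, h⟩⟩
  simp only [e]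
  rw [Fin.sum_univ_three]
  have m0 : ∀ v : HeightOneSpectrum (𝓞 K),
      Meet ((![![1, 1], ![-1, 1], ![1, 0]] : Fin 3 → Fin 2 → K) 0) ![y, 1] v ↔
        v.valuation K (y - 1) < max (v.valuation K y) 1 := by
    intro v
    unfold Meet
    simp
  have m1 : ∀ v : HeightOneSpectrum (𝓞 K),
      Meet ((![![1, 1], ![-1, 1], ![1, 0]] : Fin 3 → Fin 2 → K) 1) ![y, 1] v ↔
        v.valuation K (y + 1) < max (v.valuation K y) 1 := by
    intro v
    unfold Meet
    simp
  have m2 : ∀ v : HeightOneSpectrum (𝓞 K),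
      Meet ((![![1, 1], ![-1, 1], ![1, 0]] : Fin 3 → Fin 2 → K) 2) ![y, 1] v ↔
        1 < v.valuation K y := by
    intro v
    unfold Meet
    simp
  simp only [m0, m1, m2]
  have n0 : ∀ v : HeightOneSpectrum (𝓞 K), v.valuation K (y - 1) < max (v.valuation K y) 1 →
      v.valuation K y ≤ 1 ∧ v.valuation K (y - 1) < 1 := by
    intro v hv
    have h3 : v.valuation K y ≤ 1 := by
      by_contra hcon
      rw [not_le] at hcon
      have h4 : v.valuation K (y - 1) = v.valuation K y :=
        Valuation.map_sub_eq_of_lt_left _ (by rw [map_one]; exact hcon)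
      rw [h4, max_eq_left hcon.le] at hv
      exact lt_irrefl _ hv
    rw [max_eq_right h3] at hv
    exact ⟨h3, hv⟩
  have n1 : ∀ v : HeightOneSpectrum (𝓞 K), v.valuation K (y + 1) < max (v.valuation K y) 1 →
      v.valuation K y ≤ 1 ∧ v.valuation K (y + 1) < 1 := by
    intro v hv
    have h3 : v.valuation K y ≤ 1 := by
      by_contra hcon
      rw [not_le] at hcon
      have h4 : v.valuation K (y + 1) = v.valuation K y :=
        Valuation.map_add_eq_of_lt_left _ (by rw [map_one]; exact hcon)
      rw [h4, max_eq_left hcon.le] at hv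
      exact lt_irrefl _ hv
    rw [max_eq_right h3] at hv
    exact ⟨h3, hv⟩
  have f0 : {v : HeightOneSpectrum (𝓞 K) |
      v.valuation K (y - 1) < max (v.valuation K y) 1}.Finite :=
    (fin_zero (sub_ne_zero.2 h1)).subset fun v hv => (n0 v hv).2
  have f1 : {v : HeightOneSpectrum (𝓞 K) |
      v.valuation K (y + 1) < max (v.valuation K y) 1}.Finite :=
    (fin_zero (x := y + 1) fun h => h2 (by linear_combination h)).subset fun v hv => (n1 v hv).2
  have s1 := wt_add f0 f1
  have s2 := wt_add (P := fun v : HeightOneSpectrum (𝓞 K) =>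
    v.valuation K (y - 1) < max (v.valuation K y) 1 ∨
      v.valuation K (y + 1) < max (v.valuation K y) 1) (f0.union f1) (fin_pole y)
  have s3 : wt (fun v : HeightOneSpectrum (𝓞 K) =>
      (v.valuation K (y - 1) < max (v.valuation K y) 1 ∨
      v.valuation K (y + 1) < max (v.valuation K y) 1) ∧ 1 < v.valuation K y) = 0 := by
    refine wt_false fun v hv => ?_
    rcases hv.1 with h | h
    · exact absurd hv.2 (not_lt.2 (n0 v h).1)
    · exact absurd hv.2 (not_lt.2 (n1 v h).1)
  have s4 : wt (fun v : HeightOneSpectrum (𝓞 K) =>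
      v.valuation K (y - 1) < max (v.valuation K y) 1 ∧
      v.valuation K (y + 1) < max (v.valuation K y) 1) ≤ Module.finrank ℚ K * Real.log 2 := by
    have h3 := wt_nat (K := K) (n := 2) (by norm_num)
    rw [Nat.cast_ofNat, Nat.cast_ofNat] at h3
    refine le_trans (wt_mono (fin_zero two_ne_zero) fun v hv => ?_) h3
    have e2 : (2 : K) = (y + 1) - (y - 1) := by ring
    rw [e2]
    exact Valuation.map_sub_lt _ (n1 v hv.2).2 (n0 v hv.1).2
  have s5 : wt (fun v : HeightOneSpectrum (𝓞 K) =>
      (v.valuation K (y - 1) < max (v.valuation K y) 1 ∨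
      v.valuation K (y + 1) < max (v.valuation K y) 1) ∨ 1 < v.valuation K y) ≤
      wt (fun v => Near y⁻¹ v) := by
    refine wt_mono (fin_near ⟨inv_ne_zero h0, fun h => h1 (inv_eq_one.1 h), fun h => h2 (by
      rw [← inv_inv y, h, inv_neg, inv_one])⟩) fun v hv => ?_
    have vy0 : v.valuation K y ≠ 0 := (Valuation.ne_zero_iff _).2 h0
    rcases hv with (h | h) | h
    · obtain ⟨h3, h4⟩ := n0 v h
      right; left
      have h5 : v.valuation K y = 1 := by
        have e2 : y = 1 + (y - 1) := by ring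
        rw [e2, Valuation.map_add_eq_of_lt_left _ (by rw [map_one]; exact h4), map_one]
      have e3 : y⁻¹ - 1 = -(y - 1) / y := by
        field_simp
        ring
      rw [e3, map_div₀, Valuation.map_neg, h5, div_one]
      exact h4
    · obtain ⟨h3, h4⟩ := n1 v h
      right; right
      have h5 : v.valuation K y = 1 := by
        have e2 : y = -1 + (y + 1) := by ring
        rw [e2, Valuation.map_add_eq_of_lt_left _ (by rw [Valuation.map_neg, map_one]; exact h4),
          Valuation.map_neg, map_one]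
      have e3 : y⁻¹ + 1 = (y + 1) / y := by
        field_simp
        ring
      rw [e3, map_div₀, h5, div_one]
      exact h4
    · left
      rw [map_inv₀]
      exact (inv_lt_one₀ (zero_lt_iff.2 vy0)).2 h
  linarith

theorem thin_engine {k : ℕ} (h : ThinPoints K k) : ∀ ε : ℝ, 0 < ε → ∃ C : ℝ, ∀ u : K,
    Gen (tv k u)⁻¹ → (1 - ε) * Height.logHeight₁ (tv k u)⁻¹ ≤
      wt (fun v => Near (tv k u)⁻¹ v) + C := by
  intro ε hε
  obtain ⟨C, hC⟩ := h ε hε
  obtain ⟨d, hd⟩ : ∃ d : ℝ, d = (Module.finrank ℚ K : ℝ) := ⟨_, rfl⟩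
  have hd0 : 0 < d := by rw [hd]; exact_mod_cast Module.finrank_pos
  refine ⟨d * Real.log 2 + d * C, fun u hu => ?_⟩
  obtain ⟨y, hy⟩ : ∃ y : K, y = tv k u := ⟨_, rfl⟩
  rw [← hy] at hu ⊢
  have h0 : y ≠ 0 := fun h => hu.1 (by rw [h, inv_zero])
  have h1 : y ≠ 1 := fun h => hu.2.1 (by rw [h, inv_one])
  have h2 : y ≠ -1 := fun h => hu.2.2 (by rw [h, inv_neg, inv_one])
  have hne : ∀ l, (![y, 1] : Fin 2 → K) 0 * (![![1, 1], ![-1, 1], ![1, 0]] :
      Fin 3 → Fin 2 → K) l 1 - (![y, 1] : Fin 2 → K) 1 *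
        (![![1, 1], ![-1, 1], ![1, 0]] : Fin 3 → Fin 2 → K) l 0 ≠ 0 := by
    intro l
    fin_cases l
    · simpa using sub_ne_zero.2 h1
    · have : y + 1 ≠ 0 := fun h => h2 (by linear_combination h)
      simpa using this
    · simp
  have h3 := hC ![y, 1] ⟨u, by rw [hy]; rfl⟩ (by
    intro h
    have := congrFun h 1
    simp at this) hne
  rw [counting_eq ∅ hne, height_affine, ← hd] at h3
  have h4 := three_le y h0 h1 h2
  rw [← hd] at h4
  rw [Height.logHeight₁_inv]
  obtain ⟨W, hW⟩ : ∃ W : ℝ, W = (∑ l, wt (fun v : HeightOneSpectrum (𝓞 K) =>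
      v ∉ (∅ : Finset (HeightOneSpectrum (𝓞 K))) ∧
      Meet ((![![1, 1], ![-1, 1], ![1, 0]] : Fin 3 → Fin 2 → K) l) ![y, 1] v)) := ⟨_, rfl⟩
  rw [← hW] at h3 h4
  have h5 : (((3 : ℕ) : ℝ) - 2 - ε) * (Height.logHeight₁ y / d) * d ≤ (W / d + C) * d :=
    mul_le_mul_of_nonneg_right h3 hd0.le
  have e1 : (((3 : ℕ) : ℝ) - 2 - ε) * (Height.logHeight₁ y / d) * d =
      (1 - ε) * Height.logHeight₁ y := by
    push_cast
    field_simp
    ring
  have e2 : (W / d + C) * d = W + d * C := by field_simp
  rw [e1, e2] at h5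
  linarith

theorem to_all {k : ℕ} (h : ThinPoints K k) : AllPoints K := by
  classical
  intro S q α hα hdist ε hε
  obtain ⟨d, hd⟩ : ∃ d : ℝ, d = (Module.finrank ℚ K : ℝ) := ⟨_, rfl⟩
  have hd0 : 0 < d := by rw [hd]; exact_mod_cast Module.finrank_pos
  -- the finite and the infinite points
  obtain ⟨I, hI⟩ : ∃ I : Finset (Fin q), I = Finset.univ.filter fun l => α l 1 ≠ 0 := ⟨_, rfl⟩
  obtain ⟨J, hJ⟩ : ∃ J : Finset (Fin q), J = Finset.univ.filter fun l => ¬ α l 1 ≠ 0 := ⟨_, rfl⟩
  have hIJ : ∀ F : Fin q → ℝ, ∑ l, F l = ∑ l ∈ I, F l + ∑ l ∈ J, F l := by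
    intro F
    rw [hI, hJ, Finset.sum_filter_add_sum_filter_not]
  have hJc : J.card ≤ 1 := by
    rw [Finset.card_le_one]
    intro i hi j hj
    by_contra hij
    rw [hJ, Finset.mem_filter, not_not] at hi hj
    apply hdist i j hij
    rw [hi.2, hj.2]
    ring
  have hcard : (q : ℝ) = I.card + J.card := by
    have h1 := hIJ fun _ => 1
    simpa using h1
  obtain ⟨A, hA⟩ : ∃ A : Finset K, A = I.image fun l => α l 0 / α l 1 := ⟨_, rfl⟩
  have hinj : Set.InjOn (fun l => α l 0 / α l 1) (I : Set (Fin q)) := by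
    intro i hi j hj hij
    by_contra hne
    rw [Finset.mem_coe, hI, Finset.mem_filter] at hi hj
    have hij' : α i 0 / α i 1 = α j 0 / α j 1 := hij
    rw [div_eq_div_iff hi.2 hj.2] at hij'
    apply hdist i j hne
    rw [hij']
    ring
  have hAc : A.card = I.card := by rw [hA]; exact Finset.card_image_of_injOn hinj
  obtain ⟨C, hC⟩ := line_q A k (thin_engine h) ε hε
  obtain ⟨CS, hCS⟩ : ∃ c : ℝ, c = wt (fun v : HeightOneSpectrum (𝓞 K) => v ∈ S) := ⟨_, rfl⟩
  refine ⟨|C| / d + q * CS / d, ?_⟩
  have hCS0 : 0 ≤ CS := by rw [hCS]; exact wt_nonneg _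
  intro x _ hx0 hx
  by_cases hx1 : x 1 = 0
  · -- the point at infinity
    have hx00 : x 0 ≠ 0 := by
      intro h0
      apply hx0
      funext i
      fin_cases i
      · exact h0
      · exact hx1
    have h1 : height x = 0 := by
      unfold height
      have h2 : x = x 0 • ![1, 0] := by
        funext i
        fin_cases i
        · simp
        · simpa using hx1
      rw [h2, Height.logHeight_smul_eq_logHeight _ hx00]
      have h3 : (![1, 0] : Fin 2 → K) = ![1, 0] := rfl
      have h4 : Height.logHeight (![1, 0] : Fin 2 → K) = 0 := by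
        rw [Height.logHeight_swap, ← Height.logHeight₁_eq_logHeight, Height.logHeight₁_zero]
      rw [h4, zero_div]
    rw [h1, mul_zero]
    have h2 := counting_nonneg S α x
    have h3 : 0 ≤ |C| / d := by positivity
    have h4 : 0 ≤ q * CS / d := by positivity
    linarith
  · obtain ⟨z, hz⟩ : ∃ z : K, z = x 0 / x 1 := ⟨_, rfl⟩
    have hxz : x 0 = x 1 * z := by rw [hz]; field_simp
    have hheight : height x = Height.logHeight₁ z / d := by
      unfold height
      rw [← hd]
      congr 1
      have h2 : x = x 1 • ![z, 1] := by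
        funext i
        fin_cases i
        · simpa using hxz
        · simp
      rw [h2, Height.logHeight_smul_eq_logHeight _ (by simpa using hx1),
        ← Height.logHeight₁_eq_logHeight]
    have vx1 : ∀ v : HeightOneSpectrum (𝓞 K), v.valuation K (x 1) ≠ 0 := fun v =>
      (Valuation.ne_zero_iff _).2 hx1
    have hmax : ∀ v : HeightOneSpectrum (𝓞 K),
        max (v.valuation K (x 0)) (v.valuation K (x 1)) =
          v.valuation K (x 1) * max (v.valuation K z) 1 := by
      intro v
      rw [hxz, map_mul, mul_max, mul_one]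
    -- the finite points
    have hfinp : ∀ l ∈ I, ∀ v : HeightOneSpectrum (𝓞 K),
        v.valuation K (z - α l 0 / α l 1) < 1 → Meet (α l) x v := by
      intro l hl v hv
      rw [hI, Finset.mem_filter] at hl
      have hl1 := hl.2
      have va1 : v.valuation K (α l 1) ≠ 0 := (Valuation.ne_zero_iff _).2 hl1
      unfold Meet
      have e1 : x 0 * α l 1 - x 1 * α l 0 = (x 1 * α l 1) * (z - α l 0 / α l 1) := by
        rw [hxz]
        field_simp
      rw [e1, map_mul, map_mul, hmax]
      have h1 : v.valuation K (x 1) * v.valuation K (α l 1) *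
          v.valuation K (z - α l 0 / α l 1) < v.valuation K (x 1) * v.valuation K (α l 1) :=
        mul_lt_of_lt_one_right (zero_lt_iff.2 (mul_ne_zero (vx1 v) va1)) hv
      refine h1.trans_le ?_
      refine mul_le_mul' ?_ (le_max_right _ _)
      exact le_mul_of_one_le_right' (le_max_right _ _)
    have hinfp : ∀ l ∈ J, ∀ v : HeightOneSpectrum (𝓞 K),
        1 < v.valuation K z → Meet (α l) x v := by
      intro l hl v hv
      rw [hJ, Finset.mem_filter, not_not] at hl
      have hl1 := hl.2
      have ha0 : α l 0 ≠ 0 := by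
        intro h0
        apply hα l
        funext i
        fin_cases i
        · exact h0
        · exact hl1
      have va0 : v.valuation K (α l 0) ≠ 0 := (Valuation.ne_zero_iff _).2 ha0
      unfold Meet
      have e1 : x 0 * α l 1 - x 1 * α l 0 = -(x 1 * α l 0) := by
        rw [hl1]
        ring
      rw [e1, Valuation.map_neg, map_mul, hmax, hl1, map_zero, max_eq_left zero_le,
        max_eq_left hv.le]
      refine mul_lt_mul_of_pos_right ?_ (zero_lt_iff.2 va0)
      exact lt_mul_of_one_lt_right (zero_lt_iff.2 (vx1 v)) hv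
    have hzA : z ∉ A := by
      intro hzA
      rw [hA, Finset.mem_image] at hzA
      obtain ⟨l, hl, hlz⟩ := hzA
      rw [hI, Finset.mem_filter] at hl
      apply hx l
      rw [hxz, ← hlz]
      have := hl.2
      field_simp
      ring
    have h1 := hC z hzA
    have hS : ∀ l, wt (fun v : HeightOneSpectrum (𝓞 K) => Meet (α l) x v) ≤
        wt (fun v => v ∉ S ∧ Meet (α l) x v) + CS := by
      intro l
      rw [hCS]
      have hf := meet_fin (hx l)
      refine (wt_mono (Q := fun v => (v ∉ S ∧ Meet (α l) x v) ∨ v ∈ S)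
        ((hf.subset fun v hv => hv.2).union S.finite_toSet) fun v hv => ?_).trans
        (wt_or_le (hf.subset fun v hv => hv.2) S.finite_toSet)
      by_cases hvS : v ∈ S
      · exact Or.inr hvS
      · exact Or.inl ⟨hvS, hv⟩
    have hsumA : ∑ a ∈ A, wt (fun v : HeightOneSpectrum (𝓞 K) => v.valuation K (z - a) < 1) ≤
        ∑ l ∈ I, (wt (fun v => v ∉ S ∧ Meet (α l) x v) + CS) := by
      rw [hA, Finset.sum_image hinj]
      refine Finset.sum_le_sum fun l hl => ?_
      exact (wt_mono (meet_fin (hx l)) (hfinp l hl)).trans (hS l)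
    have hsumJ : wt (fun v : HeightOneSpectrum (𝓞 K) => 1 < v.valuation K z) ≤
        ∑ l ∈ J, (wt (fun v => v ∉ S ∧ Meet (α l) x v) + CS) +
          (1 - J.card) * Height.logHeight₁ z := by
      rcases Nat.lt_or_ge J.card 1 with h2 | h2
      · have h3 : J = ∅ := Finset.card_eq_zero.1 (by omega)
        rw [h3, Finset.sum_empty, Finset.card_empty]
        have := pole_le z
        push_cast
        linarith
      · have h3 : J.card = 1 := by omega
        obtain ⟨l, hl⟩ := Finset.card_eq_one.1 h3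
        have hlJ : l ∈ J := by rw [hl]; exact Finset.mem_singleton_self l
        rw [h3, hl, Finset.sum_singleton]
        push_cast
        have := (wt_mono (meet_fin (hx l)) (hinfp l hlJ)).trans (hS l)
        linarith
    have htot := hIJ fun l => (wt (fun v => v ∉ S ∧ Meet (α l) x v) + CS)
    rw [counting_eq S hx, hheight, ← hd]
    obtain ⟨W, hW⟩ : ∃ W : ℝ, W = ∑ l, wt (fun v => v ∉ S ∧ Meet (α l) x v) := ⟨_, rfl⟩
    have e1 : ∑ l, (wt (fun v => v ∉ S ∧ Meet (α l) x v) + CS) = W + q * CS := by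
      rw [Finset.sum_add_distrib, ← hW]
      simp
    rw [e1] at htot
    rw [← hW]
    obtain ⟨H, hH⟩ : ∃ H : ℝ, H = Height.logHeight₁ z := ⟨_, rfl⟩
    have hH0 : 0 ≤ H := by rw [hH]; exact Height.zero_le_logHeight₁ z
    rw [← hH] at h1 hsumJ ⊢
    have hAI : (A.card : ℝ) = I.card := by exact_mod_cast hAc
    have h2 : ((q : ℝ) - 2 - ε) * H ≤ W + (|C| + q * CS) := by
      have h3 := le_abs_self C
      have h4 : ((q : ℝ) - 2 - ε) * H = ((A.card : ℝ) - 1 - ε) * H - (1 - J.card) * H := by
        rw [hAI, hcard]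
        ring
      linarith
    have h3 := div_le_div_of_nonneg_right h2 hd0.le
    have e2 : ((q : ℝ) - 2 - ε) * (H / d) = ((q : ℝ) - 2 - ε) * H / d := by ring
    have e3 : W / d + (|C| / d + q * CS / d) = (W + (|C| + q * CS)) / d := by ring
    rw [e2, e3]
    exact h3

/-- **Thin sets suffice.** Let `K` be a number field of degree `d` and `k` a natural number.
(1) There are at most `50 ^ (5 d) exp (5 d² (B / 2 ^ k + 2 log 2))` points in the thin set
`Thin K k` of height at most `B`, for all `B ≥ 0`.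
(2) The truncated inequality for the three points `1`, `-1`, `∞`, without finite places in `S`, at
the points of the thin set `Thin K k` is equivalent to Q1 for `K`: the inequality for all finite
sets `S` of places, all finite sets of points of `ℙ¹(K)` and all points of `ℙ¹(K)`. -/
theorem result (K : Type) [Field K] [NumberField K] (k : ℕ) :
    (∀ B : ℝ, 0 ≤ B → {x : Fin 2 → K | x ∈ Thin K k ∧ height x ≤ B}.Finite ∧
      ({x : Fin 2 → K | x ∈ Thin K k ∧ height x ≤ B}.ncard : ℝ) ≤
        50 ^ (5 * Module.finrank ℚ K) * Real.exp (5 * (Module.finrank ℚ K : ℝ) ^ 2 *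
          (B / 2 ^ k + 2 * Real.log 2))) ∧
    (ThinPoints K k ↔ AllPoints K) := by
  classical
  refine ⟨fun B hB => ?_, to_all, fun h => ?_⟩
  · obtain ⟨d, hd⟩ : ∃ d : ℝ, d = (Module.finrank ℚ K : ℝ) := ⟨_, rfl⟩
    have hd0 : 0 < d := by rw [hd]; exact_mod_cast Module.finrank_pos
    have h2k : (0 : ℝ) < 2 ^ k := by positivity
    have hlog2 : 0 ≤ Real.log 2 := Real.log_nonneg (by norm_num)
    have hfin : {u : K | Height.logHeight₁ u ≤ d * (B / 2 ^ k + 2 * Real.log 2)}.Finite :=
      NumberField.finite_setOfPred_logHeight₁_le K _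
    have hsub : {x : Fin 2 → K | x ∈ Thin K k ∧ height x ≤ B} ⊆
        (fun u : K => (![tv k u, 1] : Fin 2 → K)) ''
          {u : K | Height.logHeight₁ u ≤ d * (B / 2 ^ k + 2 * Real.log 2)} := by
      rintro x ⟨⟨u, rfl⟩, hx⟩
      refine ⟨u, ?_, rfl⟩
      have h1 : height (![tv k u, 1] : Fin 2 → K) ≤ B := hx
      rw [height_affine, ← hd, div_le_iff₀ hd0] at h1
      have h2 := height_tv k u
      rw [← hd] at h2
      rw [Set.mem_ofPred_eq]
      have h3 : 2 ^ k * Height.logHeight₁ u ≤ 2 ^ k * (d * (B / 2 ^ k + 2 * Real.log 2)) := by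
        have e1 : 2 ^ k * (d * (B / 2 ^ k + 2 * Real.log 2)) =
            B * d + 2 ^ k * (2 * (d * Real.log 2)) := by
          field_simp
        have h4 : 0 ≤ 2 * (d * Real.log 2) := by positivity
        rw [e1]
        nlinarith
      exact le_of_mul_le_mul_left h3 h2k
    refine ⟨(hfin.image _).subset hsub, ?_⟩
    have h1 := (Set.ncard_le_ncard hsub (hfin.image _)).trans (Set.ncard_image_le hfin)
    have h2 : ({x : Fin 2 → K | x ∈ Thin K k ∧ height x ≤ B}.ncard : ℝ) ≤
        {u : K | Height.logHeight₁ u ≤ d * (B / 2 ^ k + 2 * Real.log 2)}.ncard := by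
      exact_mod_cast h1
    refine h2.trans ((north (K := K) (by positivity)).trans (le_of_eq ?_))
    rw [← hd]
    congr 2
    ring
  · intro ε hε
    obtain ⟨C, hC⟩ := h ∅ 3 ![![1, 1], ![-1, 1], ![1, 0]] (by
      intro l h0
      fin_cases l
      · have := congrFun h0 0
        simp at this
      · have := congrFun h0 1
        simp at this
      · have := congrFun h0 0
        simp at this) (by
      intro i j hij
      fin_cases i <;> fin_cases j <;> (simp at hij ⊢; try norm_num)) ε hε
    exact ⟨C, fun x _ => hC x (Set.mem_univ x)⟩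

end Pool.Agent.Results.MP_4d5ce1_nt.ThinSetsSuffice
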